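import Pool.Agent.V8H80.Stm3

/-!
Orientation preserving affine maps of the plane are nice (helper60, for MP_cbfcf7_gt).
-/

set_option autoImplicit false

open Set Filter Topology Complex

namespace Pool.Agent.V8H60.Win

open Pool.Agent.V8H80
open Pool.Agent.Helper11.PlaneEuler

lemma aff_line (a b c x y : ℂ) (t : ℝ) :
    a * (x + t * (y - x)) + b * (starRingEnd ℂ) (x + t * (y - x)) + c =
      (a * x + b * (starRingEnd ℂ) x + c) +
        t * ((a * y + b * (starRingEnd ℂ) y + c) - (a * x + b * (starRingEnd ℂ) x + c)) := by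
  simp only [map_add, map_mul, map_sub, Complex.conj_ofReal]
  ring

lemma aff_poly {g : ℂ ≃ₜ ℂ} {a b c : ℂ} (hg : ∀ z, g z = a * z + b * (starRingEnd ℂ) z + c) :
    PolyM g := by
  intro S p q hS
  refine PLc.arc (g := g) (fun x y => ?_) g.injective hS
  refine PA.one 0 1 one_pos (g x) (g y - g x) fun r _ => ?_
  rw [hg, hg, hg, aff_line, Complex.real_smul]

/-- the linear map `z ↦ a z + b conj z` -/
noncomputable def lin (a b : ℂ) : ℂ →L[ℝ] ℂ :=
  (ContinuousLinearMap.mul ℝ ℂ a) + (ContinuousLinearMap.mul ℝ ℂ b).comp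
    (Complex.conjCLE : ℂ →L[ℝ] ℂ)

lemma lin_apply (a b z : ℂ) : lin a b z = a * z + b * (starRingEnd ℂ) z := by
  simp [lin]

lemma lin_det (a b : ℂ) : (lin a b).det = Complex.normSq a - Complex.normSq b := by
  have h1 : (lin a b).det = LinearMap.det (lin a b : ℂ →ₗ[ℝ] ℂ) := rfl
  rw [h1, ← LinearMap.det_toMatrix Complex.basisOneI, Matrix.det_fin_two]
  simp only [LinearMap.toMatrix_apply, ContinuousLinearMap.coe_coe, lin_apply,
    Complex.coe_basisOneI, Complex.coe_basisOneI_repr, Matrix.cons_val_zero, Matrix.cons_val_one,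
    Complex.normSq_apply]
  simp
  ring

lemma aff_smooth (a b c : ℂ) : ContDiff ℝ ((⊤ : ℕ∞) : WithTop ℕ∞)
    (fun z : ℂ => a * z + b * (starRingEnd ℂ) z + c) := by
  have : (fun z : ℂ => a * z + b * (starRingEnd ℂ) z + c) = fun z => lin a b z + c := by
    funext z
    rw [lin_apply]
  rw [this]
  exact (lin a b).contDiff.add contDiff_const

lemma aff_det {g : ℂ ≃ₜ ℂ} {a b c : ℂ} (hg : ∀ z, g z = a * z + b * (starRingEnd ℂ) z + c) (z : ℂ) :
    (fderiv ℝ (⇑g) z).det = Complex.normSq a - Complex.normSq b := by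
  have h1 : ⇑g = fun z => lin a b z + c := by
    funext z
    rw [lin_apply, hg]
  have h2 : HasFDerivAt (⇑g) (lin a b) z := by
    rw [h1]
    exact (lin a b).hasFDerivAt.add_const c
  rw [h2.fderiv, lin_det]

lemma aff_ori {g : ℂ ≃ₜ ℂ} {a b c : ℂ} (h : ‖b‖ < ‖a‖)
    (hg : ∀ z, g z = a * z + b * (starRingEnd ℂ) z + c) : Ori g := by
  have ha : a ≠ 0 := norm_pos_iff.1 ((norm_nonneg _).trans_lt h)
  have hslit : ∀ x : Conf, (1 : ℂ) + (b / a) * ((starRingEnd ℂ) (x.1.2 - x.1.1) / (x.1.2 - x.1.1)) ∈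
      slitPlane := by
    intro x
    left
    have h1 : ‖(b / a) * ((starRingEnd ℂ) (x.1.2 - x.1.1) / (x.1.2 - x.1.1))‖ < 1 := by
      rw [norm_mul, norm_div, norm_div, Complex.norm_conj,
        div_self (norm_ne_zero_iff.2 (sub_ne x)), mul_one, div_lt_one (norm_pos_iff.2 ha)]
      exact h
    have h2 := (Complex.abs_re_le_norm _).trans_lt h1
    rw [abs_lt] at h2
    rw [Complex.add_re, Complex.one_re]
    linarith [h2.1]
  refine ⟨⟨g, ⟨fun x => Complex.arg a +
    Complex.arg (1 + (b / a) * ((starRingEnd ℂ) (x.1.2 - x.1.1) / (x.1.2 - x.1.1))), ?_⟩, ?_⟩, rfl⟩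
  · refine continuous_const.add ?_
    rw [continuous_iff_continuousAt]
    intro x
    have h1 : ContinuousAt (fun x : Conf =>
        (1 : ℂ) + (b / a) * ((starRingEnd ℂ) (x.1.2 - x.1.1) / (x.1.2 - x.1.1))) x := by
      have h2 : Continuous (fun x : Conf =>
          (1 : ℂ) + (b / a) * ((starRingEnd ℂ) (x.1.2 - x.1.1) / (x.1.2 - x.1.1))) := by
        refine continuous_const.add (continuous_const.mul (Continuous.div ?_ ?_ ?_))
        · exact Complex.continuous_conj.comp (by fun_prop)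
        · fun_prop
        · exact fun x => sub_ne x
      exact h2.continuousAt
    exact ContinuousAt.comp (g := Complex.arg)
      (f := fun x : Conf =>
        (1 : ℂ) + (b / a) * ((starRingEnd ℂ) (x.1.2 - x.1.1) / (x.1.2 - x.1.1)))
      (Complex.continuousAt_arg (hslit x)) h1
  · intro x
    have e1 : (g x.1.2 - g x.1.1) / (x.1.2 - x.1.1) =
        a * (1 + (b / a) * ((starRingEnd ℂ) (x.1.2 - x.1.1) / (x.1.2 - x.1.1))) := by
      have := sub_ne x
      rw [hg, hg, map_sub]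
      field_simp
      ring
    rw [e1, norm_mul]
    simp only [ContinuousMap.coe_mk]
    push_cast
    rw [add_mul, Complex.exp_add]
    have h1 := Complex.norm_mul_exp_arg_mul_I a
    have h2 := Complex.norm_mul_exp_arg_mul_I
      (1 + (b / a) * ((starRingEnd ℂ) (x.1.2 - x.1.1) / (x.1.2 - x.1.1)))
    nth_rewrite 1 [← h1]
    nth_rewrite 1 [← h2]
    ring

/-- P5 -/
theorem t_aff : S_aff := by
  intro a b c h
  have hD : 0 < Complex.normSq a - Complex.normSq b := by
    rw [Complex.normSq_eq_norm_sq, Complex.normSq_eq_norm_sq]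
    have := norm_nonneg b
    nlinarith
  obtain ⟨D, hDe⟩ : ∃ D : ℝ, D = Complex.normSq a - Complex.normSq b := ⟨_, rfl⟩
  rw [← hDe] at hD
  have hDc : (D : ℂ) = a * (starRingEnd ℂ) a - b * (starRingEnd ℂ) b := by
    rw [Complex.mul_conj, Complex.mul_conj, hDe]
    push_cast
    ring
  have hD0 : (D : ℂ) ≠ 0 := by exact_mod_cast hD.ne'
  obtain ⟨a', ha'⟩ : ∃ a', a' = (starRingEnd ℂ) a / D := ⟨_, rfl⟩
  obtain ⟨b', hb'⟩ : ∃ b', b' = -b / D := ⟨_, rfl⟩
  obtain ⟨c', hc'⟩ : ∃ c', c' = -(a' * c + b' * (starRingEnd ℂ) c) := ⟨_, rfl⟩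
  have hl : ∀ z : ℂ, a' * (a * z + b * (starRingEnd ℂ) z + c) +
      b' * (starRingEnd ℂ) (a * z + b * (starRingEnd ℂ) z + c) + c' = z := by
    intro z
    rw [hc', ha', hb']
    simp only [map_add, map_mul, Complex.conj_conj]
    field_simp
    rw [hDc]
    ring
  have hr : ∀ z : ℂ, a * (a' * z + b' * (starRingEnd ℂ) z + c') +
      b * (starRingEnd ℂ) (a' * z + b' * (starRingEnd ℂ) z + c') + c = z := by
    intro z
    rw [hc', ha', hb']
    simp only [map_add, map_mul, map_neg, map_div₀, Complex.conj_conj, Complex.conj_ofReal]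
    field_simp
    rw [hDc]
    ring
  let g : ℂ ≃ₜ ℂ :=
    { toFun := fun z => a * z + b * (starRingEnd ℂ) z + c
      invFun := fun z => a' * z + b' * (starRingEnd ℂ) z + c'
      left_inv := hl
      right_inv := hr
      continuous_toFun := (aff_smooth a b c).continuous
      continuous_invFun := (aff_smooth a' b' c').continuous }
  have hg : ∀ z, g z = a * z + b * (starRingEnd ℂ) z + c := fun z => rfl
  have hg' : ∀ z, g⁻¹ z = a' * z + b' * (starRingEnd ℂ) z + c' := fun z => rfl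
  refine ⟨g, ⟨aff_poly hg, aff_poly hg', ?_, aff_ori h hg⟩, hg⟩
  intro R ε hε
  refine ⟨g, ⟨aff_smooth a b c, aff_smooth a' b' c', D, D, hD, fun z => ?_⟩, fun z _ => ?_⟩
  · rw [aff_det hg, ← hDe]
    exact ⟨le_rfl, le_rfl⟩
  · simpa using hε

end Pool.Agent.V8H60.Win
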