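import Pool.Agent.Helper984_CP.Log

/-!
Continuous logarithms on the boundary of a compact convex set (helper60, for MP_cbfcf7_gt).
-/

set_option autoImplicit false

open Set Filter Topology Complex

namespace Pool.Agent.V8H60.Win

open Pool.Agent.Helper984_CP

/-- radial parametrisation of the frontier of a compact convex set -/
theorem radial {F : Set ℂ} {m : ℂ} (hF : Convex ℝ F) (hc : IsCompact F) (hm : m ∈ interior F) :
    ∃ r : ℝ → ℝ, Continuous r ∧ (∀ t, 0 < r t) ∧ (∀ t, r (t + 2 * Real.pi) = r t) ∧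
      ∀ t : ℝ, m + r t * cexp (t * I) ∈ frontier F := by
  set S : Set ℂ := (fun z => m + z) ⁻¹' F with hS
  have hSc : Convex ℝ S := hF.translate_preimage_right m
  have hS0 : S ∈ 𝓝 (0 : ℂ) := by
    have h1 : F ∈ 𝓝 (m + 0) := by rw [add_zero]; exact mem_interior_iff_mem_nhds.1 hm
    exact (continuous_const.add continuous_id).continuousAt.preimage_mem_nhds h1
  have hSb : Bornology.IsVonNBounded ℝ S := by
    rw [NormedSpace.isVonNBounded_iff]
    have h1 : S = (Homeomorph.addLeft m).symm '' F := by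
      rw [← Homeomorph.preimage_symm, Homeomorph.symm_symm]
      rfl
    rw [h1]
    exact (hc.image (Homeomorph.addLeft m).symm.continuous).isBounded
  have hfr : ∀ z, gauge S z = 1 → m + z ∈ frontier F := by
    intro z hz
    have h1 := (gauge_eq_one_iff_mem_frontier hSc hS0).1 hz
    have h2 : S = (Homeomorph.addLeft m) ⁻¹' F := rfl
    rw [h2, ← Homeomorph.preimage_frontier] at h1
    exact h1
  have hg : Continuous (gauge S) := continuous_gauge hSc hS0
  have hpos : ∀ t : ℝ, 0 < gauge S (cexp (t * I)) := fun t =>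
    (gauge_pos (absorbent_nhds_zero hS0) hSb).2 (Complex.exp_ne_zero _)
  refine ⟨fun t => (gauge S (cexp (t * I)))⁻¹, ?_, fun t => inv_pos.2 (hpos t), ?_, ?_⟩
  · refine Continuous.inv₀ (hg.comp (by fun_prop)) (fun t => (hpos t).ne')
  · intro t
    have : cexp ((t + 2 * Real.pi : ℝ) * I) = cexp (t * I) := by
      push_cast
      rw [add_mul, Complex.exp_add, Complex.exp_two_pi_mul_I, mul_one]
    simp only [this]
  · intro t
    apply hfr
    have h1 := gauge_smul_of_nonneg (s := S) (inv_pos.2 (hpos t)).le (cexp (t * I))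
    rw [Complex.real_smul] at h1
    rw [h1, smul_eq_mul, inv_mul_cancel₀ (hpos t).ne']

/-- no continuous logarithm of `(x - m) ^ k` on the frontier of a compact convex set around `m` -/
theorem noLog {F : Set ℂ} {m : ℂ} (hF : Convex ℝ F) (hc : IsCompact F) (hm : m ∈ interior F)
    {k : ℕ} (hk : k ≠ 0) {K : ℂ → ℂ} (hK : ContinuousOn K (frontier F))
    (h : ∀ x ∈ frontier F, (x - m) ^ k = cexp (K x)) : False := by
  obtain ⟨r, hr, hpos, hper, hfr⟩ := radial hF hc hm
  set c : ℝ → ℂ := fun t => m + r t * cexp (t * I) with hcdef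
  have hcc : Continuous c := by
    have : Continuous (fun t : ℝ => ((r t : ℝ) : ℂ)) := Complex.continuous_ofReal.comp hr
    simp only [hcdef]
    fun_prop
  have hu : Continuous (fun t => K (c t)) := hK.comp_continuous hcc hfr
  have hv : Continuous (fun t : ℝ => (k : ℂ) * ((Real.log (r t) : ℝ) + t * I)) := by
    have : Continuous (fun t : ℝ => Real.log (r t)) := hr.log (fun t => (hpos t).ne')
    have : Continuous (fun t : ℝ => ((Real.log (r t) : ℝ) : ℂ)) := Complex.continuous_ofReal.comp this
    fun_prop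
  have he : ∀ t : ℝ, cexp (K (c t)) = cexp ((k : ℂ) * ((Real.log (r t) : ℝ) + t * I)) := by
    intro t
    rw [← h _ (hfr t), Complex.exp_nat_mul, Complex.exp_add, ← Complex.ofReal_exp,
      Real.exp_log (hpos t)]
    simp
  have h1 := exp_rigid hu hv he (0 + 2 * Real.pi) 0
  have h2 : c (0 + 2 * Real.pi) = c 0 := by
    simp only [hcdef]
    rw [hper 0]
    congr 2
    push_cast
    rw [add_mul, Complex.exp_add, Complex.exp_two_pi_mul_I, mul_one]
  simp only [h2, hper 0] at h1
  have h3 : (k : ℂ) * (2 * Real.pi * I) = 0 := by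
    push_cast at h1
    linear_combination -h1
  have hk' : (k : ℂ) ≠ 0 := by exact_mod_cast hk
  have hpi : (2 * Real.pi * I : ℂ) ≠ 0 := Complex.two_pi_I_ne_zero
  exact mul_ne_zero hk' hpi h3

open scoped unitInterval in
/-- a continuous map without zeros on a convex set has a continuous logarithm -/
theorem convexLog {F : Set ℂ} {m : ℂ} (hF : Convex ℝ F) (hm : m ∈ F) {g : ℂ → ℂ}
    (hg : Continuous g) (h0 : ∀ x ∈ F, g x ≠ 0) :
    ∃ H : ℂ → ℂ, ContinuousOn H F ∧ ∀ x ∈ F, g x = cexp (H x) := by
  classical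
  have hmem : ∀ (t : I) (x : F), m + (t : ℝ) * ((x : ℂ) - m) ∈ F := by
    intro t x
    have := hF hm x.2 (sub_nonneg.2 t.2.2) t.2.1 (by ring)
    have e : (1 - (t : ℝ)) • m + (t : ℝ) • (x : ℂ) = m + (t : ℝ) * ((x : ℂ) - m) := by
      simp only [Complex.real_smul]
      push_cast
      ring
    rwa [e] at this
  let H : C(I × F, ℂ) := ⟨fun q => g (m + ((q.1 : ℝ) : ℂ) * ((q.2 : ℂ) - m)) / g m, by
    refine Continuous.div_const ?_ _
    exact hg.comp (by fun_prop)⟩
  have hm0 : g m ≠ 0 := h0 m hm
  obtain ⟨L, hL0, hL⟩ := exists_log H (fun q => div_ne_zero (h0 _ (hmem q.1 q.2)) hm0) (fun a => by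
    simp [H, div_self hm0])
  refine ⟨fun x => if hx : x ∈ F then L (1, ⟨x, hx⟩) + Complex.log (g m) else 0, ?_, ?_⟩
  · rw [continuousOn_iff_continuous_domRestrict]
    have : F.domRestrict (fun x => if hx : x ∈ F then L (1, ⟨x, hx⟩) + Complex.log (g m) else 0) =
        fun x : F => L (1, x) + Complex.log (g m) := by
      funext x
      simp [Set.domRestrict_apply, x.2]
    rw [this]
    exact (L.continuous.comp (by fun_prop)).add continuous_const
  · intro x hx
    simp only [dif_pos hx]
    rw [Complex.exp_add, hL, Complex.exp_log hm0]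
    simp [H, div_mul_cancel₀ _ hm0]

end Pool.Agent.V8H60.Win
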