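import Pool.Agent.V8H60.Win.Basic
import Pool.Agent.V8H80.Stm2

/-!
Proofs of `S_face` and `S_rev` (helper60, for MP_cbfcf7_gt).
-/

set_option autoImplicit false

open Set Filter Topology Complex

namespace Pool.Agent.V8H60.Win

open Pool.Agent.V8H80

/-- the logarithm of the difference quotient of an orientation preserving homeomorphism -/
theorem oriLog {f : ℂ ≃ₜ ℂ} (hf : Ori f) (m : ℂ) :
    ∃ L : ℂ → ℂ, ContinuousOn L {m}ᶜ ∧ ∀ x, x ≠ m → f x - f m = (x - m) * cexp (L x) := by
  classical
  obtain ⟨G, rfl⟩ := hf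
  let q : {x : ℂ // x ∈ ({m}ᶜ : Set ℂ)} → Pool.Agent.Helper11.PlaneEuler.Conf :=
    fun x => ⟨(m, x), fun h => x.2 h.symm⟩
  have hq : Continuous q := by
    refine Continuous.subtype_mk ?_ _
    fun_prop
  have hne : ∀ x, x ≠ m → (G.homeo x - G.homeo m) / (x - m) ≠ 0 := fun x hx =>
    div_ne_zero (sub_ne_zero.2 (fun h => hx (G.homeo.injective h))) (sub_ne_zero.2 hx)
  refine ⟨fun x => if hx : x ∈ ({m}ᶜ : Set ℂ) then
    ((Real.log ‖(G.homeo x - G.homeo m) / (x - m)‖ : ℝ) : ℂ) + G.angle (q ⟨x, hx⟩) * I else 0,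
    ?_, ?_⟩
  · rw [continuousOn_iff_continuous_domRestrict]
    have : ({m}ᶜ : Set ℂ).domRestrict (fun x => if hx : x ∈ ({m}ᶜ : Set ℂ) then
        ((Real.log ‖(G.homeo x - G.homeo m) / (x - m)‖ : ℝ) : ℂ) +
          G.angle (q ⟨x, hx⟩) * I else 0) =
        fun x : {x : ℂ // x ∈ ({m}ᶜ : Set ℂ)} =>
          ((Real.log ‖(G.homeo x - G.homeo m) / ((x : ℂ) - m)‖ : ℝ) : ℂ) + G.angle (q x) * I := by
      funext x
      have hx : (x : ℂ) ∈ ({m}ᶜ : Set ℂ) := x.2
      rw [Set.domRestrict_apply, dif_pos hx]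
    rw [this]
    have h1 : Continuous fun x : {x : ℂ // x ∈ ({m}ᶜ : Set ℂ)} =>
        ‖(G.homeo x - G.homeo m) / ((x : ℂ) - m)‖ := by
      refine Continuous.norm (Continuous.div ?_ ?_ ?_)
      · have := G.homeo.continuous
        fun_prop
      · fun_prop
      · intro x
        exact sub_ne_zero.2 x.2
    have h2 := h1.log (fun x => norm_ne_zero_iff.2 (hne x x.2))
    have h3 : Continuous fun x => G.angle (q x) := G.angle.continuous.comp hq
    exact (Complex.continuous_ofReal.comp h2).add
      ((Complex.continuous_ofReal.comp h3).mul continuous_const)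
  · intro x hx
    have hx' : x ∈ ({m}ᶜ : Set ℂ) := hx
    simp only [dif_pos hx']
    have h1 := G.spec (q ⟨x, hx'⟩)
    have h2 : (G.homeo x - G.homeo m) / (x - m) =
      (‖(G.homeo x - G.homeo m) / (x - m)‖ : ℂ) * cexp (G.angle (q ⟨x, hx'⟩) * I) := h1
    rw [Complex.exp_add, ← Complex.ofReal_exp, Real.exp_log (norm_pos_iff.2 (hne x hx)), ← h2]
    rw [mul_div_cancel₀]
    exact sub_ne_zero.2 hx

/-- the comparison of two points which are close, relative to a third point -/
theorem closeLog {a b c : ℂ} (h : ‖a - b‖ < ‖b - c‖) :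
    1 + (a - b) / (b - c) ∈ slitPlane ∧ a - c = (b - c) * (1 + (a - b) / (b - c)) := by
  have h0 : 0 < ‖b - c‖ := (norm_nonneg _).trans_lt h
  have h1 : b - c ≠ 0 := norm_pos_iff.1 h0
  constructor
  · left
    have h2 : ‖(a - b) / (b - c)‖ < 1 := by
      rw [norm_div, div_lt_one h0]
      exact h
    have h3 := (Complex.abs_re_le_norm _).trans_lt h2
    rw [abs_lt] at h3
    rw [Complex.add_re, Complex.one_re]
    linarith [h3.1]
  · field_simp
    ring

/-- on the frontier `γ x - f m = (x - m) exp(K x)` -/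
theorem frontLog {f γ : ℂ ≃ₜ ℂ} {F : Set ℂ} {m : ℂ} (hf : Ori f) (hm : m ∈ interior F)
    (h : ∀ x ∈ frontier F, ‖γ x - f x‖ < ‖f x - f m‖) :
    ∃ K : ℂ → ℂ, ContinuousOn K (frontier F) ∧
      ∀ x ∈ frontier F, γ x - f m = (x - m) * cexp (K x) := by
  obtain ⟨L, hL, hLe⟩ := oriLog hf m
  have hxm : ∀ x ∈ frontier F, x ≠ m := by
    rintro x hx rfl
    exact hx.2 hm
  have hsub : frontier F ⊆ {m}ᶜ := fun x hx => hxm x hx
  refine ⟨fun x => L x + Complex.log (1 + (γ x - f x) / (f x - f m)), ?_, ?_⟩
  · refine (hL.mono hsub).add (ContinuousOn.clog ?_ ?_)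
    · refine ContinuousOn.add continuousOn_const (ContinuousOn.div ?_ ?_ ?_)
      · exact (γ.continuous.sub f.continuous).continuousOn
      · exact (f.continuous.sub continuous_const).continuousOn
      · intro x hx
        exact norm_pos_iff.1 ((norm_nonneg _).trans_lt (h x hx))
    · intro x hx
      exact (closeLog (h x hx)).1
  · intro x hx
    obtain ⟨h1, h2⟩ := closeLog (h x hx)
    rw [Complex.exp_add, Complex.exp_log (Complex.slitPlane_ne_zero h1), ← mul_assoc,
      ← hLe x (hxm x hx)]
    exact h2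

theorem not_front {f γ : ℂ ≃ₜ ℂ} {F : Set ℂ} {m : ℂ}
    (h : ∀ x ∈ frontier F, ‖γ x - f x‖ < ‖f x - f m‖) : ∀ x ∈ frontier F, γ x ≠ f m := by
  intro x hx he
  have := h x hx
  rw [he, norm_sub_rev] at this
  exact lt_irrefl _ this

/-- P7 -/
theorem t_face : S_face := by
  intro f γ F m hf hF hc hm h
  by_contra hcon
  have hne : ∀ x ∈ F, γ x - f m ≠ 0 := by
    intro x hx he
    rw [sub_eq_zero] at he
    by_cases hxi : x ∈ interior F
    · exact hcon ⟨x, hxi, he⟩
    · exact not_front h x ⟨subset_closure hx, hxi⟩ he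
  obtain ⟨H, hH, hHe⟩ := convexLog (g := fun x => γ x - f m) hF (interior_subset hm)
    (γ.continuous.sub continuous_const) hne
  obtain ⟨K, hK, hKe⟩ := frontLog hf hm h
  have hfrF : frontier F ⊆ F := hc.isClosed.frontier_subset
  refine noLog hF hc hm one_ne_zero (K := fun x => H x - K x) ((hH.mono hfrF).sub hK) ?_
  intro x hx
  have h1 := hHe x (hfrF hx)
  have h2 := hKe x hx
  rw [pow_one, Complex.exp_sub, ← h1, h2, mul_div_assoc, div_self (Complex.exp_ne_zero _), mul_one]

/-- P8 -/
theorem t_rev : S_rev := by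
  intro f γ F m hf hg hF hc hm h
  have hfrF : frontier F ⊆ F := hc.isClosed.frontier_subset
  obtain ⟨K, hK, hKe⟩ := frontLog hf hm h
  set m2 := γ.symm (f m) with hm2
  have hγ : γ m2 = f m := γ.apply_symm_apply _
  obtain ⟨L, hL, hLe⟩ := oriLog hg (conjH m2)
  have hcc : ∀ z : ℂ, (γ * conjH) (conjH z) = γ z := by
    intro z
    show γ (conjH (conjH z)) = γ z
    congr 1
    exact Complex.conj_conj z
  have hconj : ∀ z : ℂ, conjH z = (starRingEnd ℂ) z := fun z => rfl
  have hx2 : ∀ x ∈ frontier F, x ≠ m2 := by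
    rintro x hx rfl
    exact not_front h _ hx hγ
  -- `conj (x - m2) exp = (x - m) exp`
  have e1 : ∀ x ∈ frontier F, (starRingEnd ℂ) (x - m2) = (x - m) * cexp (K x - L (conjH x)) := by
    intro x hx
    have hne : conjH x ≠ conjH m2 := fun he => hx2 x hx (conjH.injective he)
    have h1 := hLe (conjH x) hne
    rw [hcc, hcc, hγ, hKe x hx] at h1
    rw [Complex.exp_sub, ← mul_div_assoc, h1, mul_div_assoc, div_self (Complex.exp_ne_zero _),
      mul_one, map_sub]
    rfl
  have hLc : ContinuousOn (fun x => L (conjH x)) (frontier F) := by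
    refine hL.comp conjH.continuous.continuousOn ?_
    intro x hx
    exact fun he => hx2 x hx (conjH.injective he)
  by_cases hin : m2 ∈ F
  · -- both points are in the interior
    have hint : m2 ∈ interior F := by
      by_contra hcon
      exact hx2 m2 ⟨subset_closure hin, hcon⟩ rfl
    have hxm : ∀ x ∈ frontier F, x - m ≠ 0 := by
      intro x hx he
      rw [sub_eq_zero] at he
      exact hx.2 (he ▸ hm)
    have hslit : ∀ x ∈ frontier F, (x - m2) / (x - m) ∈ slitPlane := by
      intro x hx
      by_contra hcon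
      rw [Complex.mem_slitPlane_iff_not_le_zero, not_not] at hcon
      obtain ⟨s, hs, hse⟩ : ∃ s : ℝ, 0 ≤ s ∧ (x - m2) / (x - m) = -(s : ℂ) := by
        refine ⟨-((x - m2) / (x - m)).re, ?_, ?_⟩
        · have := (Complex.le_def.1 hcon).1
          simpa using this
        · have h1 := (Complex.le_def.1 hcon).2
          apply Complex.ext
          · simp
          · simpa using h1
      rw [div_eq_iff (hxm x hx)] at hse
      -- `x` is between `m` and `m2`
      have h1s : (0 : ℝ) < 1 + s := by linarith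
      have hmem : (1 / (1 + s)) • m2 + (s / (1 + s)) • m ∈ interior F :=
        hF.interior hint hm (by positivity) (by positivity) (by field_simp)
      have hxe : (1 / (1 + s)) • m2 + (s / (1 + s)) • m = x := by
        simp only [Complex.real_smul]
        have h1sc : ((1 : ℂ) + s) ≠ 0 := by
          have : ((1 + s : ℝ) : ℂ) ≠ 0 := by exact_mod_cast h1s.ne'
          simpa using this
        push_cast
        field_simp
        linear_combination -hse
      rw [hxe] at hmem
      exact hx.2 hmem
    refine noLog hF hc hm two_ne_zero (K := fun x =>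
      ((Real.log (‖x - m‖ ^ 2) : ℝ) : ℂ) + (starRingEnd ℂ) (Complex.log ((x - m2) / (x - m)))
        - (K x - L (conjH x))) ?_ ?_
    · refine ContinuousOn.sub (ContinuousOn.add ?_ ?_) (hK.sub hLc)
      · refine Complex.continuous_ofReal.comp_continuousOn (ContinuousOn.log ?_ ?_)
        · fun_prop
        · intro x hx
          exact pow_ne_zero _ (norm_ne_zero_iff.2 (hxm x hx))
      · refine Complex.continuous_conj.comp_continuousOn (ContinuousOn.clog ?_ hslit)
        exact ContinuousOn.div (by fun_prop) (by fun_prop) hxm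
    · intro x hx
      have hxm' := hxm x hx
      have h1 := e1 x hx
      have h2 : cexp (Complex.log ((x - m2) / (x - m))) = (x - m2) / (x - m) :=
        Complex.exp_log (Complex.slitPlane_ne_zero (hslit x hx))
      have h3 : cexp (K x - L (conjH x)) = (starRingEnd ℂ) (x - m2) / (x - m) := by
        rw [h1, mul_div_cancel_left₀ _ hxm']
      have h4 : (starRingEnd ℂ) (x - m2) ≠ 0 := by
        rw [map_ne_zero]
        exact sub_ne_zero.2 (hx2 x hx)
      rw [Complex.exp_sub, Complex.exp_add, Complex.exp_conj, h2, h3, ← Complex.ofReal_exp,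
        Real.exp_log (by positivity)]
      rw [map_div₀]
      have h5 : ((‖x - m‖ ^ 2 : ℝ) : ℂ) = (x - m) * (starRingEnd ℂ) (x - m) := by
        rw [Complex.mul_conj, Complex.normSq_eq_norm_sq]
      have h6 : (starRingEnd ℂ) (x - m) ≠ 0 := by
        rw [map_ne_zero]
        exact hxm'
      rw [h5]
      field_simp
  · -- `x - m2` has a logarithm
    have hne : ∀ x ∈ F, x - m2 ≠ 0 := by
      intro x hx he
      rw [sub_eq_zero] at he
      exact hin (he ▸ hx)
    obtain ⟨H, hH, hHe⟩ := convexLog hF (interior_subset hm) (continuous_id.sub continuous_const)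
      (g := fun x => x - m2) hne
    refine noLog hF hc hm one_ne_zero (K := fun x =>
      (starRingEnd ℂ) (H x) - (K x - L (conjH x))) ?_ ?_
    · exact (Complex.continuous_conj.comp_continuousOn (hH.mono hfrF)).sub (hK.sub hLc)
    · intro x hx
      have h1 := e1 x hx
      have h2 := hHe x (hfrF hx)
      rw [pow_one, Complex.exp_sub, Complex.exp_conj, ← h2, h1, mul_div_assoc,
        div_self (Complex.exp_ne_zero _), mul_one]

end Pool.Agent.V8H60.Win
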